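import Pool.Agent.V5helper96.SZ.B1A

/-! # Project SZ (helper73): job B1, the counting -/

set_option autoImplicit false
open Complex Metric Set Filter Topology MeasureTheory

namespace V5helper96.SZ

open V5helper73.SZ

theorem card_le_two_pow {N i : ℕ} {P : Finset ℕ} (hP : ∀ j ∈ P, j / 2 ^ N = i) :
    P.card ≤ 2 ^ N := by
  have hsub : P ⊆ Finset.Ico (i * 2 ^ N) (i * 2 ^ N + 2 ^ N) := by
    intro j hj
    have h := hP j hj
    rw [Finset.mem_Ico]
    have h1 : i * 2 ^ N ≤ j := by rw [← h]; exact Nat.div_mul_le_self j (2 ^ N)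
    have h2 : j < (i + 1) * 2 ^ N := by
      rw [← h]
      exact (Nat.div_lt_iff_lt_mul (by positivity)).1 (Nat.lt_succ_self (j / 2 ^ N))
    rw [add_mul, one_mul] at h2
    exact ⟨h1, h2⟩
  have := Finset.card_le_card hsub
  rwa [Nat.card_Ico, Nat.add_sub_cancel_left] at this

theorem part_bound (hKT : S_KT) (hTWO : S_TWO) (hCNT : S_CNT) (hHAR3 : S_HAR3) (hCHAR2 : S_CHAR2)
    (hOMI : S_OMI) {R : ℝ} (hR : 0 < R) : ∃ K : ℝ, 0 ≤ K ∧ ∀ f : ℂ → ℂ, InS f → ∀ k N i : ℕ,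
    2 ≤ k → 4 ≤ N → ∀ (P : Finset ℕ) (ε M : ℝ), 0 < ε → 0 < M →
    (∀ j ∈ P, j < 2 ^ (k + N) ∧ j / 2 ^ N = i ∧
      ‖f (pt (k + N) j) - f (pt k i)‖ ≤ R * dd f (pt k i) ∧
      ‖f (pt (k + N) j)‖ ≤ 2 * M ∧ ε ≤ dd f (pt (k + N) j)) →
    (∀ j ∈ P, ∀ j' ∈ P, 8 * j' ≤ 8 * j + 2 ^ (k + N)) →
    (P.card : ℝ) ≤ K * (1 + N) * (min M (dd f (pt k i)) / ε) ^ (3 / 4 : ℝ) * 2 ^ ((N : ℝ) / 2) := by
  obtain ⟨C, hC, hHAR⟩ := hHAR3
  obtain ⟨K2, hK2, hcnt⟩ := hCNT C (3 / 4) hC (by norm_num)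
  have hcpos : 0 < 576 * R * (1 + 4 * R) := by positivity
  set c : ℝ := 576 * R * (1 + 4 * R) with hc
  have hlog400 : 0 < Real.log 400 := Real.log_pos (by norm_num)
  have hlog2 : 0 < Real.log 2 := Real.log_pos (by norm_num)
  refine ⟨2 * K2 * (1 + Real.log 400) * Real.exp (5 / 4 * Real.log 400) * c ^ (3 / 4 : ℝ),
    by positivity, ?_⟩
  intro f hf k N i hk hN P ε M hε hM hP hspread
  have ha : pt k i ∈ ball (0:ℂ) 1 := by rw [mem_ball_zero_iff]; exact norm_pt_lt k i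
  obtain ⟨hg, hD, -⟩ := hKT f hf.diff hf.inj (pt k i) ha
  obtain ⟨w₀, hw₀, homit⟩ := hOMI f hf
  obtain ⟨A, hA1, hA2⟩ := hCHAR2 (kt f (pt k i)) hg
    ((w₀ - f (pt k i)) / (deriv f (pt k i) * (1 - (‖pt k i‖ : ℂ) ^ 2))) (omit_kt hKT hf homit ha)
  obtain ⟨sq, hsq1, hsq2⟩ := hHAR k (k + N) i hk (by omega)
  have hkN : k + N - k = N := by omega
  rw [hkN] at hsq1 hsq2
  have hσ : 0 < min M (dd f (pt k i)) := lt_min hM hD
  have hN16 : (1 / 2 : ℝ) ^ N ≤ 1 / 16 := by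
    calc (1 / 2 : ℝ) ^ N ≤ (1 / 2 : ℝ) ^ 4 := pow_le_pow_of_le_one (by norm_num) (by norm_num) hN
      _ = 1 / 16 := by norm_num
  have hNpos : (0:ℝ) < (1 / 2 : ℝ) ^ N := by positivity
  have h2N : (0:ℝ) < 2 ^ N := by positivity
  have h2N1 : (2:ℝ) ^ N * (1 / 2) ^ N = 1 := by rw [← mul_pow]; norm_num
  -- facts at the points
  have hfact : ∀ j ∈ P, sq j ∈ ball (0:ℂ) 1 ∧ sq j ≠ 0 ∧
      Real.log ((1 + ‖sq j‖ ^ 2) / (1 - ‖sq j‖ ^ 2)) ≤ N * Real.log 2 + Real.log 400 ∧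
      ε * 2 ^ N / (c * min M (dd f (pt k i))) ≤ Real.exp (A (sq j)).re := by
    intro j hj
    obtain ⟨hj1, hj2, hj3, hj4, hj5⟩ := hP j hj
    have hs := hsq1 j hj1 hj2
    have hlow := bm_low (k := k) hj2
    have hup := bm_up k N i j
    have hz : pt (k + N) j ∈ ball (0:ℂ) 1 := by rw [mem_ball_zero_iff]; exact norm_pt_lt _ _
    have hsn : ‖sq j‖ ^ 2 < 1 := by
      have h1 : ‖sq j ^ 2‖ ^ 2 < 1 := by
        rw [hs]; linarith
      rw [norm_pow] at h1
      by_contra h2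
      rw [not_lt] at h2
      nlinarith
    have hsb : sq j ∈ ball (0:ℂ) 1 := by
      rw [mem_ball_zero_iff]
      nlinarith [norm_nonneg (sq j)]
    have hs0 : sq j ≠ 0 := by
      intro h0
      rw [h0, zero_pow two_ne_zero] at hs
      rw [← hs, norm_zero] at hup
      norm_num at hup
      nlinarith
    refine ⟨hsb, hs0, ?_, ?_⟩
    · apply log_le
      rw [hs]; exact hlow
    · have hz2 : 3 / 4 ≤ ‖pt (k + N) j‖ := by
        rw [norm_pt]
        have : (1 / 2 : ℝ) ^ (k + N) ≤ (1 / 2 : ℝ) ^ 2 :=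
          pow_le_pow_of_le_one (by norm_num) (by norm_num) (by omega)
        norm_num at this ⊢
        linarith
      have hAj := hA1 (sq j) hsb hs0
      rw [hs] at hAj
      have h1 := one_point hKT hTWO hf hw₀ homit hR ha hz hz2 (δ := 4 * (1 / 2 : ℝ) ^ N)
        (by positivity) (by linarith) hup hj3 hj4 hj5 hAj
      rw [div_le_iff₀ (by positivity)]
      have h2 := mul_le_mul_of_nonneg_right h1 h2N.le
      calc ε * 2 ^ N ≤ _ := h2
        _ = (2 ^ N * (1 / 2) ^ N) * (Real.exp (A (sq j)).re *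
            (c * min M (dd f (pt k i)))) := by rw [hc]; ring
        _ = _ := by rw [h2N1, one_mul]
  have hcard : (P.card : ℝ) ≤ 2 ^ N := by
    have := card_le_two_pow (P := P) (N := N) (i := i) (fun j hj => (hP j hj).2.1)
    exact_mod_cast this
  have hLpos : 0 < N * Real.log 2 + Real.log 400 := by positivity
  have hmain := hcnt P (fun j => A (sq j)) (N * Real.log 2 + Real.log 400) hLpos (by
    intro Q hQ hQne
    have hmem : ∀ t, Q.orderEmbOfFin rfl t ∈ P := fun t => hQ (Finset.orderEmbOfFin_mem Q rfl t)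
    refine ⟨y2 (fun t => sq (Q.orderEmbOfFin rfl t)), ?_, ?_⟩
    · exact hsq2 Q.card (Q.orderEmbOfFin rfl) (Q.orderEmbOfFin rfl).strictMono
        (fun t => ⟨(hP _ (hmem t)).1, (hP _ (hmem t)).2.1⟩)
        (fun t t' => hspread _ (hmem t) _ (hmem t'))
    · intro lam hlam
      have h := hA2 Q.card (fun t => sq (Q.orderEmbOfFin rfl t)) (fun t => (hfact _ (hmem t)).1)
        (fun t => (hfact _ (hmem t)).2.1) lam hlam
      have hsum : ∑ j ∈ Q, A (sq j) = ∑ t : Fin Q.card, A (sq (Q.orderEmbOfFin rfl t)) := by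
        conv_lhs => rw [← Finset.map_orderEmbOfFin_univ Q rfl]
        rw [Finset.sum_map]
        rfl
      have hS : (∑ t : Fin Q.card, Real.log ((1 + ‖sq (Q.orderEmbOfFin rfl t)‖ ^ 2) /
          (1 - ‖sq (Q.orderEmbOfFin rfl t)‖ ^ 2))) ≤
          Q.card * (N * Real.log 2 + Real.log 400) := by
        have h1 := Finset.sum_le_card_nsmul (Finset.univ : Finset (Fin Q.card)) (fun t =>
          Real.log ((1 + ‖sq (Q.orderEmbOfFin rfl t)‖ ^ 2) /
          (1 - ‖sq (Q.orderEmbOfFin rfl t)‖ ^ 2))) (N * Real.log 2 + Real.log 400)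
          (fun t _ => (hfact _ (hmem t)).2.2.1)
        rwa [Finset.card_univ, Fintype.card_fin, nsmul_eq_mul] at h1
      rw [hsum]
      refine h.trans ?_
      refine div_le_div_of_nonneg_right (add_le_add ?_ ?_) (by norm_num)
      · exact mul_le_mul_of_nonneg_left (by linarith) hlam.le
      · exact div_le_div_of_nonneg_right (by linarith) hlam.le)
  have hsqrt : Real.sqrt (1 + (3 / 4 : ℝ) ^ 2) = 5 / 4 := by
    have : (1 + (3 / 4 : ℝ) ^ 2) = (5 / 4) ^ 2 := by norm_num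
    rw [this, Real.sqrt_sq (by norm_num)]
  rw [hsqrt] at hmain
  set σ : ℝ := min M (dd f (pt k i)) with hσdef
  set L : ℝ := N * Real.log 2 + Real.log 400 with hL
  set X : ℝ := (ε * 2 ^ N / (c * σ)) ^ (3 / 4 : ℝ) with hX
  have hXle : (P.card : ℝ) * X ≤ ∑ j ∈ P, Real.exp (3 / 4 * (A (sq j)).re) := by
    rw [← nsmul_eq_mul]
    refine Finset.card_nsmul_le_sum P _ X (fun j hj => ?_)
    rw [mul_comm (3 / 4 : ℝ), Real.exp_mul]
    exact Real.rpow_le_rpow (by positivity) (hfact j hj).2.2.2 (by norm_num)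
  have hexpL : (2:ℝ) ^ N ≤ Real.exp (5 / 4 * L) := by
    have h1 : (2:ℝ) ^ N = Real.exp (N * Real.log 2) := by
      rw [Real.exp_nat_mul, Real.exp_log (by norm_num)]
    rw [h1]
    apply Real.exp_le_exp.2
    rw [hL]
    have : 0 ≤ N * Real.log 2 := by positivity
    linarith
  have hexpL2 : Real.exp (5 / 4 * L) = 2 ^ (5 / 4 * (N:ℝ)) * Real.exp (5 / 4 * Real.log 400) := by
    rw [Real.rpow_def_of_pos (by norm_num), ← Real.exp_add]
    congr 1
    rw [hL]; ring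
  have hL1 : 1 + L ≤ (1 + Real.log 400) * (1 + N) := by
    have hlog21 : Real.log 2 ≤ 1 := by
      have := Real.log_two_lt_d9
      linarith
    have h1 : (N:ℝ) * Real.log 2 ≤ N * 1 := mul_le_mul_of_nonneg_left hlog21 (Nat.cast_nonneg _)
    have h2 : 0 ≤ Real.log 400 * N := by positivity
    rw [hL]
    nlinarith
  have hstep : (P.card : ℝ) * X ≤ 2 * K2 * ((1 + Real.log 400) * (1 + N)) *
      (2 ^ (5 / 4 * (N:ℝ)) * Real.exp (5 / 4 * Real.log 400)) := by
    rw [← hexpL2]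
    have hE : 0 < Real.exp (5 / 4 * L) := Real.exp_pos _
    have h1 : K2 * (P.card : ℝ) ≤ K2 * ((1 + L) * Real.exp (5 / 4 * L)) := by
      refine mul_le_mul_of_nonneg_left ?_ hK2
      calc (P.card : ℝ) ≤ 2 ^ N := hcard
        _ ≤ Real.exp (5 / 4 * L) := hexpL
        _ ≤ (1 + L) * Real.exp (5 / 4 * L) := by nlinarith
    calc (P.card : ℝ) * X ≤ _ := hXle
      _ ≤ _ := hmain
      _ ≤ 2 * K2 * (1 + L) * Real.exp (5 / 4 * L) := by linarith
      _ ≤ _ := by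
        refine mul_le_mul_of_nonneg_right ?_ hE.le
        exact mul_le_mul_of_nonneg_left hL1 (by positivity)
  have hXc : X * (c ^ (3 / 4 : ℝ) * (σ / ε) ^ (3 / 4 : ℝ)) = 2 ^ (3 / 4 * (N:ℝ)) := by
    rw [hX, ← Real.mul_rpow hcpos.le (by positivity), ← Real.mul_rpow (by positivity) (by positivity)]
    have e : ε * 2 ^ N / (c * σ) * (c * (σ / ε)) = (2:ℝ) ^ (N : ℝ) := by
      rw [Real.rpow_natCast]
      field_simp
    rw [e, ← Real.rpow_mul (by norm_num), mul_comm]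
  have hpos34 : (0:ℝ) < 2 ^ (3 / 4 * (N:ℝ)) := by positivity
  have hsplit : (2:ℝ) ^ (5 / 4 * (N:ℝ)) = 2 ^ (3 / 4 * (N:ℝ)) * 2 ^ ((N:ℝ) / 2) := by
    rw [← Real.rpow_add (by norm_num)]
    congr 1; ring
  have hfin : (P.card : ℝ) * 2 ^ (3 / 4 * (N:ℝ)) ≤
      (2 * K2 * (1 + Real.log 400) * Real.exp (5 / 4 * Real.log 400) * c ^ (3 / 4 : ℝ) *
        (1 + N) * (σ / ε) ^ (3 / 4 : ℝ) * 2 ^ ((N : ℝ) / 2)) * 2 ^ (3 / 4 * (N:ℝ)) := by
    have h1 := mul_le_mul_of_nonneg_right hstep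
      (by positivity : 0 ≤ c ^ (3 / 4 : ℝ) * (σ / ε) ^ (3 / 4 : ℝ))
    rw [mul_assoc, hXc] at h1
    refine h1.trans (le_of_eq ?_)
    rw [hsplit]; ring
  exact le_of_mul_le_mul_right hfin hpos34

theorem t_B1 (hKT : S_KT) (hTWO : S_TWO) (_hGEO : S_GEO) (hCNT : S_CNT) (hHAR3 : S_HAR3)
    (hCHAR2 : S_CHAR2) (hOMI : S_OMI) : S_B1 := by
  intro R hR
  obtain ⟨K, hK, hpart⟩ := part_bound hKT hTWO hCNT hHAR3 hCHAR2 hOMI hR
  refine ⟨8 * K + 8 * (16 * (R + 1)), by positivity, ?_⟩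
  intro f hf k m i hk hkm hi s ε M hε hM hs
  obtain ⟨N, rfl⟩ := Nat.exists_eq_add_of_le hkm
  have e1 : ((k + N : ℕ) : ℝ) - k = N := by push_cast; ring
  rw [e1]
  have e2 : k + N - k = N := by omega
  rw [e2] at hs
  have ha : pt k i ∈ ball (0:ℂ) 1 := by rw [mem_ball_zero_iff]; exact norm_pt_lt k i
  obtain ⟨hg, hD, -⟩ := hKT f hf.diff hf.inj (pt k i) ha
  have hσ : 0 < min M (dd f (pt k i)) := lt_min hM hD
  rcases s.eq_empty_or_nonempty with rfl | ⟨j₀, hj₀⟩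
  · rw [Finset.card_empty, Nat.cast_zero]
    positivity
  have h2N2 : (1:ℝ) ≤ 2 ^ ((N:ℝ) / 2) := Real.one_le_rpow (by norm_num) (by positivity)
  rcases Nat.lt_or_ge N 4 with hN | hN
  · -- few points
    obtain ⟨h1, h2, h3, h4, h5, h6⟩ := hs j₀ hj₀
    have hz : pt (k + N) j₀ ∈ ball (0:ℂ) 1 := by rw [mem_ball_zero_iff]; exact norm_pt_lt _ _
    have hz2 : 3 / 4 ≤ ‖pt (k + N) j₀‖ := by
      rw [norm_pt]
      have : (1 / 2 : ℝ) ^ (k + N) ≤ (1 / 2 : ℝ) ^ 2 :=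
        pow_le_pow_of_le_one (by norm_num) (by norm_num) (by omega)
      norm_num at this ⊢
      linarith
    have hM1 : ε ≤ 16 * (R + 1) * M := by
      have h7 := dd_le_f hTWO hf hz
      have h8 : ε * (3 / 4) ≤ dd f (pt (k + N) j₀) * ‖pt (k + N) j₀‖ :=
        mul_le_mul h6 hz2 (by norm_num) (hε.le.trans h6)
      have h9 : 0 ≤ R * M := by positivity
      nlinarith
    have hM2 : ε ≤ 16 * (R + 1) * dd f (pt k i) := by
      have h7 := (hTWO f hf.diff hf.inj (pt (k + N) j₀) hz (pt k i) ha).2.2.2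
      rw [norm_sub_rev] at h7
      nlinarith
    have hM3 : ε ≤ 16 * (R + 1) * min M (dd f (pt k i)) := by
      rcases le_total M (dd f (pt k i)) with h | h
      · rw [min_eq_left h]; exact hM1
      · rw [min_eq_right h]; exact hM2
    have hcard : (s.card : ℝ) ≤ 8 := by
      have h7 := card_le_two_pow (P := s) (N := N) (i := i) (fun j hj => (hs j hj).2.1)
      have h8 : 2 ^ N ≤ 2 ^ 3 := Nat.pow_le_pow_right (by norm_num) (by omega)
      have h9 : s.card ≤ 8 := by omega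
      exact_mod_cast h9
    have hR1 : 0 < 16 * (R + 1) := by positivity
    have hR2 : 1 / (16 * (R + 1)) ≤ 1 := by
      rw [div_le_one hR1]; linarith
    have h10 : 1 / (16 * (R + 1)) ≤ (min M (dd f (pt k i)) / ε) ^ (3 / 4 : ℝ) := by
      have h11 : 1 / (16 * (R + 1)) ≤ min M (dd f (pt k i)) / ε := by
        rw [div_le_div_iff₀ hR1 hε]; linarith
      calc 1 / (16 * (R + 1)) = (1 / (16 * (R + 1))) ^ (1 : ℝ) := (Real.rpow_one _).symm
        _ ≤ (1 / (16 * (R + 1))) ^ (3 / 4 : ℝ) :=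
          Real.rpow_le_rpow_of_exponent_ge (by positivity) hR2 (by norm_num)
        _ ≤ _ := Real.rpow_le_rpow (by positivity) h11 (by norm_num)
    have h12 : 1 ≤ (16 * (R + 1)) * (min M (dd f (pt k i)) / ε) ^ (3 / 4 : ℝ) := by
      have := mul_le_mul_of_nonneg_left h10 hR1.le
      rwa [mul_one_div_cancel hR1.ne'] at this
    set Y : ℝ := (min M (dd f (pt k i)) / ε) ^ (3 / 4 : ℝ) with hY
    have hY0 : 0 < Y := by positivity
    have hN1 : (1:ℝ) ≤ 1 + N := by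
      have : (0:ℝ) ≤ N := Nat.cast_nonneg _
      linarith
    calc (s.card : ℝ) ≤ 8 * 1 := by linarith
      _ ≤ 8 * ((16 * (R + 1)) * Y) := by linarith
      _ ≤ (8 * K + 8 * (16 * (R + 1))) * Y := by
        have : 0 ≤ 8 * K * Y := by positivity
        linarith
      _ ≤ ((8 * K + 8 * (16 * (R + 1))) * Y) * ((1 + N) * 2 ^ ((N:ℝ) / 2)) := by
        refine le_mul_of_one_le_right (by positivity) ?_
        exact one_le_mul_of_one_le_of_one_le hN1 h2N2
      _ = _ := by ring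
  · -- eight parts
    have hpow : 2 ^ (k + N) = 8 * 2 ^ (k + N - 3) := by
      have : k + N = (k + N - 3) + 3 := by omega
      conv_lhs => rw [this, pow_add]
      ring
    have hmap : ∀ j ∈ s, j / 2 ^ (k + N - 3) ∈ Finset.range 8 := by
      intro j hj
      rw [Finset.mem_range, Nat.div_lt_iff_lt_mul (by positivity), ← hpow]
      exact (hs j hj).1
    rw [Finset.card_eq_sum_card_fiberwise hmap]
    push_cast
    have hb : ∀ q ∈ Finset.range 8, ((s.filter (fun j => j / 2 ^ (k + N - 3) = q)).card : ℝ) ≤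
        K * (1 + N) * (min M (dd f (pt k i)) / ε) ^ (3 / 4 : ℝ) * 2 ^ ((N : ℝ) / 2) := by
      intro q _
      refine hpart f hf k N i hk hN _ ε M hε hM ?_ ?_
      · intro j hj
        obtain ⟨h1, h2, h3, h4, h5, h6⟩ := hs j (Finset.mem_filter.1 hj).1
        exact ⟨h1, h2, h3, h5, h6⟩
      · intro j hj j' hj'
        have h1 := (Finset.mem_filter.1 hj).2
        have h2 := (Finset.mem_filter.1 hj').2
        have h3 : q * 2 ^ (k + N - 3) ≤ j := by
          rw [← h1]; exact Nat.div_mul_le_self j _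
        have h4 : j' < (q + 1) * 2 ^ (k + N - 3) := by
          rw [← h2]
          exact (Nat.div_lt_iff_lt_mul (by positivity)).1 (Nat.lt_succ_self _)
        rw [hpow]
        rw [add_mul, one_mul] at h4
        omega
    refine (Finset.sum_le_card_nsmul _ _ _ hb).trans ?_
    rw [Finset.card_range, nsmul_eq_mul]
    have h7 : 0 ≤ (8 * (16 * (R + 1))) * (1 + N) * (min M (dd f (pt k i)) / ε) ^ (3 / 4 : ℝ) *
        2 ^ ((N : ℝ) / 2) := by positivity
    push_cast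
    linarith

end V5helper96.SZ
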