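import Pool.Agent.V5helper73.SZ.StmC

/-! # Project SZ (helper73): job OMI -/

set_option autoImplicit false
open Complex Metric Set Filter Topology MeasureTheory

namespace V5helper96.SZ

open V5helper73.SZ

/-- on every circle `|z| = r` there is a point with `|f z| ≤ r` -/
theorem exists_small {f : ℂ → ℂ} (hf : InS f) {r : ℝ} (hr0 : 0 < r) (hr1 : r < 1) :
    ∃ z : ℂ, ‖z‖ = r ∧ ‖f z‖ ≤ r := by
  have hfd : DifferentiableOn ℂ f (ball 0 1) := hf.diff
  have h0 : (0 : ℂ) ∈ ball (0 : ℂ) 1 := mem_ball_self one_pos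
  have hgd : DifferentiableOn ℂ (dslope f 0) (ball 0 1) :=
    (Complex.differentiableOn_dslope (isOpen_ball.mem_nhds h0)).2 hfd
  have hg0 : dslope f 0 0 = 1 := by rw [dslope_same, hf.one]
  have hgz : ∀ z : ℂ, z ≠ 0 → dslope f 0 z = f z / z := by
    intro z hz
    rw [dslope_of_ne _ hz, slope_def_field, hf.zero, sub_zero, sub_zero]
  have hne : ∀ z ∈ ball (0 : ℂ) 1, dslope f 0 z ≠ 0 := by
    intro z hz
    rcases eq_or_ne z 0 with rfl | hz0
    · rw [hg0]; exact one_ne_zero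
    · rw [hgz z hz0]
      refine div_ne_zero ?_ hz0
      intro h
      exact hz0 (hf.inj hz h0 (by rw [h, hf.zero]))
  have hinv : DifferentiableOn ℂ (fun z => (dslope f 0 z)⁻¹) (ball 0 1) := hgd.inv hne
  have hsub : closedBall (0 : ℂ) r ⊆ ball 0 1 := closedBall_subset_ball hr1
  have hdc : DiffContOnCl ℂ (fun z => (dslope f 0 z)⁻¹) (ball 0 r) := by
    refine ⟨hinv.mono ((ball_subset_closedBall).trans hsub), ?_⟩
    rw [closure_ball _ hr0.ne']
    exact hinv.continuousOn.mono hsub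
  obtain ⟨z, hz, hmax⟩ := Complex.exists_mem_frontier_isMaxOn_norm isBounded_ball
    ⟨0, mem_ball_self hr0⟩ hdc
  rw [frontier_ball _ hr0.ne', mem_sphere_zero_iff_norm] at hz
  refine ⟨z, hz, ?_⟩
  have h1 : ‖(dslope f 0 0)⁻¹‖ ≤ ‖(dslope f 0 z)⁻¹‖ :=
    hmax (subset_closure (mem_ball_self hr0))
  have hz0 : z ≠ 0 := by
    intro h; rw [h, norm_zero] at hz; exact hr0.ne hz
  rw [hg0, inv_one, norm_one, hgz z hz0, norm_inv, norm_div, inv_div, hz] at h1
  by_contra hlt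
  rw [not_le] at hlt
  have : r / ‖f z‖ < 1 := by
    rw [div_lt_one (hr0.trans hlt)]; exact hlt
  linarith

theorem t_OMI : S_OMI := by
  intro f hf
  have hr : ∀ n : ℕ, 0 < 1 - (1 / ((n : ℝ) + 2)) ∧ 1 - (1 / ((n : ℝ) + 2)) < 1 := by
    intro n
    have h2 : (0:ℝ) < (n:ℝ) + 2 := by positivity
    have h3 : 1 / ((n:ℝ) + 2) < 1 := by
      rw [div_lt_one h2]; linarith [(Nat.cast_nonneg n : (0:ℝ) ≤ (n:ℝ))]
    have h4 : 0 < 1 / ((n:ℝ) + 2) := by positivity
    constructor <;> linarith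
  choose z hz1 hz2 using fun n : ℕ => exists_small hf (hr n).1 (hr n).2
  have hcb : ∀ n, f (z n) ∈ closedBall (0:ℂ) 1 := by
    intro n
    rw [mem_closedBall_zero_iff]
    exact (hz2 n).trans (hr n).2.le
  obtain ⟨w, hw, φ, hφ, hlim⟩ := (isCompact_closedBall (0:ℂ) 1).tendsto_subseq hcb
  refine ⟨w, mem_closedBall_zero_iff.1 hw, ?_⟩
  rintro v hv rfl
  have han : AnalyticAt ℂ f v := hf.diff.analyticAt (isOpen_ball.mem_nhds hv)
  rcases han.eventually_constant_or_nhds_le_map_nhds with h | h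
  · have h1 : ∀ᶠ x in 𝓝[≠] v, f x = f v := h.filter_mono nhdsWithin_le_nhds
    have h2 : ∀ᶠ x in 𝓝[≠] v, x ∈ ball (0 : ℂ) 1 :=
      (isOpen_ball.eventually_mem hv).filter_mono nhdsWithin_le_nhds
    obtain ⟨x, hx1, hx2, hx3⟩ := (h1.and (h2.and self_mem_nhdsWithin)).exists
    exact hx3 (hf.inj hx2 hv hx1)
  · have hv' : ‖v‖ < 1 := by simpa using hv
    obtain ⟨r, hr1, hr2⟩ := exists_between hv'
    have h1 : f '' ball 0 r ∈ 𝓝 (f v) := by
      apply h
      exact image_mem_map (isOpen_ball.mem_nhds (by simpa using hr1))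
    have h2 := hlim.eventually h1
    have h3 : Tendsto (fun n : ℕ => 1 - (1 / ((n : ℝ) + 2))) atTop (𝓝 (1 - 0)) := by
      refine tendsto_const_nhds.sub ?_
      have := (tendsto_const_nhds (x := (1:ℝ))).div_atTop
        (tendsto_atTop_add_const_right atTop (2:ℝ) tendsto_natCast_atTop_atTop)
      exact this
    rw [sub_zero] at h3
    have h4 : ∀ᶠ n in atTop, r < ‖z (φ n)‖ := by
      have h5 := (h3.comp hφ.tendsto_atTop).eventually (lt_mem_nhds hr2)
      filter_upwards [h5] with n hn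
      rw [hz1]; exact hn
    obtain ⟨n, ⟨y, hy, hxy⟩, hn2⟩ := (h2.and h4).exists
    have hy' : ‖y‖ < r := by simpa using hy
    have hzb : z (φ n) ∈ ball (0:ℂ) 1 := by
      rw [mem_ball_zero_iff, hz1]; exact (hr _).2
    have : y = z (φ n) := hf.inj (by simpa using hy'.trans hr2) hzb hxy
    rw [this] at hy'
    exact lt_asymm hy' hn2

end V5helper96.SZ
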