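import Pool.Agent.V5helper73.SZ.StmC
import Pool.Agent.H713R5.QJ.TKBP

/-! # Project SZ (helper73): job B1 -/

set_option autoImplicit false
open Complex Metric Set Filter Topology MeasureTheory

namespace V5helper96.SZ

open V5helper73.SZ

theorem bm_identity (a z : ℂ) (h : 1 - (starRingEnd ℂ) a * z ≠ 0) :
    (1 - ‖bm a z‖ ^ 2) * ‖1 - (starRingEnd ℂ) a * z‖ ^ 2 = (1 - ‖a‖ ^ 2) * (1 - ‖z‖ ^ 2) := by
  have h1 : ‖1 - (starRingEnd ℂ) a * z‖ ≠ 0 := norm_ne_zero_iff.2 h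
  have h2 : ‖bm a z‖ ^ 2 * ‖1 - (starRingEnd ℂ) a * z‖ ^ 2 = ‖z - a‖ ^ 2 := by
    unfold bm
    rw [norm_div, div_pow, div_mul_cancel₀ _ (pow_ne_zero 2 h1)]
  have h3 : ‖1 - (starRingEnd ℂ) a * z‖ ^ 2 - ‖z - a‖ ^ 2 = (1 - ‖a‖ ^ 2) * (1 - ‖z‖ ^ 2) := by
    rw [← Complex.normSq_eq_norm_sq, ← Complex.normSq_eq_norm_sq, ← Complex.normSq_eq_norm_sq,
      ← Complex.normSq_eq_norm_sq]
    simp only [Complex.normSq_apply, Complex.sub_re, Complex.sub_im, Complex.mul_re,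
      Complex.mul_im, Complex.one_re, Complex.one_im, Complex.conj_re, Complex.conj_im]
    ring
  rw [sub_mul, one_mul, h2, h3]

theorem norm_pt (k i : ℕ) : ‖pt k i‖ = 1 - (1 / 2 : ℝ) ^ k := by
  unfold pt
  rw [norm_mul, Complex.norm_exp_ofReal_mul_I, mul_one, Complex.norm_real, Real.norm_of_nonneg]
  have : (1 / 2 : ℝ) ^ k ≤ 1 := pow_le_one₀ (by norm_num) (by norm_num)
  linarith

theorem one_sub_ne {a z : ℂ} (ha : ‖a‖ < 1) (hz : ‖z‖ < 1) : 1 - (starRingEnd ℂ) a * z ≠ 0 := by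
  intro h
  have h1 : (starRingEnd ℂ) a * z = 1 := by linear_combination -h
  have h2 : ‖a‖ * ‖z‖ = 1 := by
    have := congrArg norm h1
    rwa [norm_mul, Complex.norm_conj, norm_one] at this
  nlinarith [norm_nonneg a, norm_nonneg z]

theorem norm_pt_lt (k i : ℕ) : ‖pt k i‖ < 1 := by
  rw [norm_pt]
  have : (0 : ℝ) < (1 / 2 : ℝ) ^ k := by positivity
  linarith

/-- distance of a point of the tree to its ancestor -/
theorem dist_pt {k N i j : ℕ} (hj : j / 2 ^ N = i) :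
    ‖pt k i - pt (k + N) j‖ ≤ 8 * (1 / 2 : ℝ) ^ k := by
  have hk : (0 : ℝ) < (1 / 2 : ℝ) ^ k := by positivity
  have hkN : (0 : ℝ) < (1 / 2 : ℝ) ^ (k + N) := by positivity
  have hkN2 : (1 / 2 : ℝ) ^ (k + N) ≤ (1 / 2 : ℝ) ^ k := by
    rw [pow_add]
    have : (1 / 2 : ℝ) ^ N ≤ 1 := pow_le_one₀ (by norm_num) (by norm_num)
    nlinarith
  have hk1 : (1 / 2 : ℝ) ^ k ≤ 1 := pow_le_one₀ (by norm_num) (by norm_num)
  set x : ℝ := 2 * Real.pi * i / 2 ^ k with hx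
  set y : ℝ := 2 * Real.pi * j / 2 ^ (k + N) with hy
  have hpi : (0:ℝ) < 2 * Real.pi := by positivity
  have hxy : |x - y| ≤ 2 * Real.pi * (1 / 2 : ℝ) ^ k := by
    have h2N : (0:ℝ) < 2 ^ N := by positivity
    have h2k : (0:ℝ) < 2 ^ k := by positivity
    have h1 : i * 2 ^ N ≤ j := by
      rw [← hj]; exact Nat.div_mul_le_self j (2 ^ N)
    have h2 : j < (i + 1) * 2 ^ N := by
      rw [← hj]
      have := Nat.lt_succ_self (j / 2 ^ N)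
      exact (Nat.div_lt_iff_lt_mul (by positivity)).1 this
    have h1' : (i : ℝ) * 2 ^ N ≤ j := by exact_mod_cast h1
    have h2' : (j : ℝ) < (i + 1) * 2 ^ N := by exact_mod_cast h2
    have e : x - y = 2 * Real.pi * ((i * 2 ^ N - j) / 2 ^ N) * (1 / 2) ^ k := by
      rw [hx, hy, pow_add, one_div, inv_pow]
      field_simp
    have h3 : |((i:ℝ) * 2 ^ N - j) / 2 ^ N| ≤ 1 := by
      rw [abs_div, abs_of_pos h2N, div_le_one h2N, abs_le]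
      constructor <;> linarith
    rw [e, abs_mul, abs_mul, abs_of_pos hpi, abs_of_pos hk]
    have := mul_le_mul_of_nonneg_left h3 hpi.le
    nlinarith
  have hexp : ‖Complex.exp ((x : ℂ) * Complex.I) - Complex.exp ((y : ℂ) * Complex.I)‖ ≤ |x - y| := by
    have h1 : Complex.exp ((x : ℂ) * Complex.I) - Complex.exp ((y : ℂ) * Complex.I) =
        Complex.exp ((y : ℂ) * Complex.I) * (Complex.exp (((x - y : ℝ) : ℂ) * Complex.I) - 1) := by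
      rw [mul_sub, mul_one, ← Complex.exp_add]
      congr 2
      push_cast
      ring
    rw [h1, norm_mul, Complex.norm_exp_ofReal_mul_I, one_mul]
    have := Real.norm_exp_I_mul_ofReal_sub_one_le (x := x - y)
    rw [mul_comm (Complex.I)] at this
    simpa using this
  have e : pt k i - pt (k + N) j = ((1 - (1 / 2 : ℝ) ^ k : ℝ) : ℂ) *
      (Complex.exp ((x : ℂ) * Complex.I) - Complex.exp ((y : ℂ) * Complex.I)) +
      (((1 / 2 : ℝ) ^ (k + N) - (1 / 2 : ℝ) ^ k : ℝ) : ℂ) * Complex.exp ((y : ℂ) * Complex.I) := by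
    unfold pt
    rw [← hx, ← hy]
    push_cast
    ring
  rw [e]
  refine (norm_add_le _ _).trans ?_
  rw [norm_mul, norm_mul, Complex.norm_exp_ofReal_mul_I, mul_one, Complex.norm_real,
    Complex.norm_real, Real.norm_eq_abs, Real.norm_eq_abs, abs_of_nonneg (by linarith : (0:ℝ) ≤ 1 - (1/2:ℝ)^k),
    abs_of_nonpos (by linarith : (1/2:ℝ)^(k+N) - (1/2:ℝ)^k ≤ 0)]
  have hpi2 : Real.pi < 3.15 := Real.pi_lt_d2
  have h5 : (1 - (1/2:ℝ)^k) * ‖Complex.exp ((x : ℂ) * Complex.I) - Complex.exp ((y : ℂ) * Complex.I)‖ ≤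
      1 * (2 * Real.pi * (1 / 2 : ℝ) ^ k) := by
    refine mul_le_mul (by linarith) (hexp.trans hxy) (norm_nonneg _) (by norm_num)
  nlinarith

theorem bm_low {k N i j : ℕ} (hj : j / 2 ^ N = i) :
    (1 / 2 : ℝ) ^ N / 100 ≤ 1 - ‖bm (pt k i) (pt (k + N) j)‖ ^ 2 := by
  set a := pt k i with ha
  set z := pt (k + N) j with hz
  have ha1 : ‖a‖ < 1 := norm_pt_lt _ _
  have hz1 : ‖z‖ < 1 := norm_pt_lt _ _
  have hne := one_sub_ne ha1 hz1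
  have hid := bm_identity a z hne
  have hk : (0 : ℝ) < (1 / 2 : ℝ) ^ k := by positivity
  have hk1 : (1 / 2 : ℝ) ^ k ≤ 1 := pow_le_one₀ (by norm_num) (by norm_num)
  have hN : (0 : ℝ) < (1 / 2 : ℝ) ^ N := by positivity
  have hna : ‖a‖ = 1 - (1 / 2 : ℝ) ^ k := norm_pt _ _
  have hnz : ‖z‖ = 1 - (1 / 2 : ℝ) ^ (k + N) := norm_pt _ _
  have hkN1 : (1 / 2 : ℝ) ^ (k + N) ≤ 1 := pow_le_one₀ (by norm_num) (by norm_num)
  have hkN0 : (0:ℝ) < (1 / 2 : ℝ) ^ (k + N) := by positivity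
  have h1 : (1 / 2 : ℝ) ^ k ≤ 1 - ‖a‖ ^ 2 := by rw [hna]; nlinarith
  have h2 : (1 / 2 : ℝ) ^ (k + N) ≤ 1 - ‖z‖ ^ 2 := by rw [hnz]; nlinarith
  have h1' : 1 - ‖a‖ ^ 2 ≤ 2 * (1 / 2 : ℝ) ^ k := by rw [hna]; nlinarith
  have h3 : ‖1 - (starRingEnd ℂ) a * z‖ ≤ 10 * (1 / 2 : ℝ) ^ k := by
    have e : 1 - (starRingEnd ℂ) a * z = ((1 - ‖a‖ ^ 2 : ℝ) : ℂ) + (starRingEnd ℂ) a * (a - z) := by
      have : (starRingEnd ℂ) a * a = ((‖a‖ ^ 2 : ℝ) : ℂ) := by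
        rw [← Complex.normSq_eq_norm_sq, Complex.normSq_eq_conj_mul_self]
      rw [mul_sub, this]; push_cast; ring
    rw [e]
    refine (norm_add_le _ _).trans ?_
    rw [norm_mul, Complex.norm_conj, Complex.norm_real, Real.norm_of_nonneg (hk.le.trans h1)]
    have h4 := dist_pt (k := k) hj
    rw [← ha, ← hz] at h4
    have h5 : ‖a‖ * ‖a - z‖ ≤ 1 * (8 * (1 / 2 : ℝ) ^ k) :=
      mul_le_mul ha1.le h4 (norm_nonneg _) (by norm_num)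
    linarith
  have h6 : (1 / 2 : ℝ) ^ k * (1 / 2 : ℝ) ^ (k + N) ≤
      (1 - ‖bm a z‖ ^ 2) * (10 * (1 / 2 : ℝ) ^ k) ^ 2 := by
    have h7 : (1 / 2 : ℝ) ^ k * (1 / 2 : ℝ) ^ (k + N) ≤ (1 - ‖a‖ ^ 2) * (1 - ‖z‖ ^ 2) :=
      mul_le_mul h1 h2 hkN0.le (hk.le.trans h1)
    rw [← hid] at h7
    have h8 : ‖1 - (starRingEnd ℂ) a * z‖ ^ 2 ≤ (10 * (1 / 2 : ℝ) ^ k) ^ 2 :=
      pow_le_pow_left₀ (norm_nonneg _) h3 2
    have h9 : 0 ≤ 1 - ‖bm a z‖ ^ 2 := by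
      by_contra hneg
      rw [not_le] at hneg
      have : (1 - ‖bm a z‖ ^ 2) * ‖1 - (starRingEnd ℂ) a * z‖ ^ 2 ≤ 0 :=
        mul_nonpos_of_nonpos_of_nonneg hneg.le (by positivity)
      have h10 : 0 < (1 / 2 : ℝ) ^ k * (1 / 2 : ℝ) ^ (k + N) := by positivity
      linarith
    exact h7.trans (mul_le_mul_of_nonneg_left h8 h9)
  rw [pow_add] at h6
  have h11 : (0:ℝ) < ((1 / 2 : ℝ) ^ k) ^ 2 := by positivity
  have h12 : ((1 / 2 : ℝ) ^ k) ^ 2 * (1 / 2 : ℝ) ^ N ≤ ((1 / 2 : ℝ) ^ k) ^ 2 * ((1 - ‖bm a z‖ ^ 2) * 100) := by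
    nlinarith
  have := le_of_mul_le_mul_left h12 h11
  linarith

theorem bm_up (k N i j : ℕ) :
    1 - ‖bm (pt k i) (pt (k + N) j)‖ ^ 2 ≤ 4 * (1 / 2 : ℝ) ^ N := by
  set a := pt k i with ha
  set z := pt (k + N) j with hz
  have ha1 : ‖a‖ < 1 := norm_pt_lt _ _
  have hz1 : ‖z‖ < 1 := norm_pt_lt _ _
  have hne := one_sub_ne ha1 hz1
  have hid := bm_identity a z hne
  have hk : (0 : ℝ) < (1 / 2 : ℝ) ^ k := by positivity
  have hk1 : (1 / 2 : ℝ) ^ k ≤ 1 := pow_le_one₀ (by norm_num) (by norm_num)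
  have hN : (0 : ℝ) < (1 / 2 : ℝ) ^ N := by positivity
  have hna : ‖a‖ = 1 - (1 / 2 : ℝ) ^ k := norm_pt _ _
  have hnz : ‖z‖ = 1 - (1 / 2 : ℝ) ^ (k + N) := norm_pt _ _
  have hkN1 : (1 / 2 : ℝ) ^ (k + N) ≤ 1 := pow_le_one₀ (by norm_num) (by norm_num)
  have hkN0 : (0:ℝ) < (1 / 2 : ℝ) ^ (k + N) := by positivity
  have h1 : 1 - ‖a‖ ^ 2 ≤ 2 * (1 / 2 : ℝ) ^ k := by rw [hna]; nlinarith
  have h2 : 1 - ‖z‖ ^ 2 ≤ 2 * (1 / 2 : ℝ) ^ (k + N) := by rw [hnz]; nlinarith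
  have h1' : 0 ≤ 1 - ‖a‖ ^ 2 := by nlinarith [norm_nonneg a]
  have h2' : 0 ≤ 1 - ‖z‖ ^ 2 := by nlinarith [norm_nonneg z]
  have h3 : (1 / 2 : ℝ) ^ k ≤ ‖1 - (starRingEnd ℂ) a * z‖ := by
    have h4 : (1:ℝ) - ‖a‖ * ‖z‖ ≤ ‖1 - (starRingEnd ℂ) a * z‖ := by
      have h5 := norm_sub_norm_le (1 : ℂ) ((starRingEnd ℂ) a * z)
      rwa [norm_one, norm_mul, Complex.norm_conj] at h5
    have h6 : ‖a‖ * ‖z‖ ≤ ‖a‖ * 1 := mul_le_mul_of_nonneg_left hz1.le (norm_nonneg _)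
    linarith
  by_contra hlt
  rw [not_le] at hlt
  have h7 : ((1 / 2 : ℝ) ^ k) ^ 2 ≤ ‖1 - (starRingEnd ℂ) a * z‖ ^ 2 :=
    pow_le_pow_left₀ hk.le h3 2
  have h8 : (4 * (1 / 2 : ℝ) ^ N) * ((1 / 2 : ℝ) ^ k) ^ 2 <
      (1 - ‖bm a z‖ ^ 2) * ‖1 - (starRingEnd ℂ) a * z‖ ^ 2 := by
    have h9 : 0 ≤ 1 - ‖bm a z‖ ^ 2 := (by positivity : (0:ℝ) ≤ 4 * (1 / 2 : ℝ) ^ N).trans hlt.le
    calc (4 * (1 / 2 : ℝ) ^ N) * ((1 / 2 : ℝ) ^ k) ^ 2 < (1 - ‖bm a z‖ ^ 2) * ((1 / 2 : ℝ) ^ k) ^ 2 :=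
          mul_lt_mul_of_pos_right hlt (by positivity)
      _ ≤ _ := mul_le_mul_of_nonneg_left h7 h9
  rw [hid] at h8
  have h9 : (1 - ‖a‖ ^ 2) * (1 - ‖z‖ ^ 2) ≤ (2 * (1 / 2 : ℝ) ^ k) * (2 * (1 / 2 : ℝ) ^ (k + N)) :=
    mul_le_mul h1 h2 h2' (by positivity)
  rw [pow_add] at h9
  nlinarith


/-! ### the estimates at one point -/

theorem norm_Dc {f : ℂ → ℂ} {a : ℂ} (ha : ‖a‖ < 1) :
    ‖deriv f a * (1 - (‖a‖ : ℂ) ^ 2)‖ = dd f a := by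
  unfold dd
  rw [norm_mul]
  congr 1
  have e : (1 - (‖a‖ : ℂ) ^ 2) = ((1 - ‖a‖ ^ 2 : ℝ) : ℂ) := by push_cast; ring
  rw [e, Complex.norm_real, Real.norm_of_nonneg]
  nlinarith [norm_nonneg a]

theorem omit_kt (hKT : S_KT) {f : ℂ → ℂ} (hf : InS f) {w₀ : ℂ} (homit : ∀ v ∈ ball (0:ℂ) 1, f v ≠ w₀)
    {a : ℂ} (ha : a ∈ ball (0:ℂ) 1) :
    ∀ v ∈ ball (0:ℂ) 1, kt f a v ≠ (w₀ - f a) / (deriv f a * (1 - (‖a‖ : ℂ) ^ 2)) := by
  intro v hv h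
  have ha' : -a ∈ ball (0:ℂ) 1 := by simpa using ha
  obtain ⟨-, hD, -⟩ := hKT f hf.diff hf.inj a ha
  obtain ⟨-, -, h2⟩ := hKT f hf.diff hf.inj (-a) ha'
  have h3 := (h2 v hv).1
  have e : bm (-a) v = (v + a) / (1 + (starRingEnd ℂ) a * v) := by
    unfold bm
    rw [map_neg, sub_neg_eq_add, neg_mul, sub_neg_eq_add]
  rw [e] at h3
  have hDc : deriv f a * (1 - (‖a‖ : ℂ) ^ 2) ≠ 0 := by
    rw [← norm_pos_iff, norm_Dc (by simpa using ha)]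
    exact hD
  unfold kt at h
  rw [div_left_inj' hDc] at h
  exact homit _ h3 (sub_left_injective h)

theorem norm_f_ge (hTWO : S_TWO) {f : ℂ → ℂ} (hf : InS f) {z : ℂ} (hz : z ∈ ball (0:ℂ) 1) :
    ‖z‖ ≤ 4 * ‖f z‖ := by
  have h := (hTWO f hf.diff hf.inj 0 (mem_ball_self one_pos) z hz).1
  have e1 : dd f 0 = 1 := by unfold dd; rw [hf.one]; simp
  have e2 : bm 0 z = z := by unfold bm; simp
  rw [e1, e2, hf.zero, sub_zero, one_mul] at h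
  exact h

theorem dd_le_f (hTWO : S_TWO) {f : ℂ → ℂ} (hf : InS f) {z : ℂ} (hz : z ∈ ball (0:ℂ) 1) :
    dd f z * ‖z‖ ≤ 4 * ‖f z‖ := by
  have h := (hTWO f hf.diff hf.inj z hz 0 (mem_ball_self one_pos)).1
  have e2 : ‖bm z 0‖ = ‖z‖ := by unfold bm; simp
  rw [e2, hf.zero, zero_sub, norm_neg] at h
  exact h

theorem one_point (hKT : S_KT) (hTWO : S_TWO) {f : ℂ → ℂ} (hf : InS f) {w₀ : ℂ} (hw₀ : ‖w₀‖ ≤ 1)
    (homit : ∀ v ∈ ball (0:ℂ) 1, f v ≠ w₀) {R : ℝ} (hR : 0 < R) {a z : ℂ} (ha : a ∈ ball (0:ℂ) 1)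
    (hz : z ∈ ball (0:ℂ) 1) (hz2 : 3 / 4 ≤ ‖z‖) {δ : ℝ} (hδ0 : 0 < δ) (hδ : δ ≤ 1 / 4)
    (hup : 1 - ‖bm a z‖ ^ 2 ≤ δ) {ε M : ℝ}
    (hRf : ‖f z - f a‖ ≤ R * dd f a) (hM2 : ‖f z‖ ≤ 2 * M) (hε : ε ≤ dd f z) {A : ℂ}
    (hA : Complex.exp A * (kt f a (bm a z) * ((w₀ - f a) / (deriv f a * (1 - (‖a‖ : ℂ) ^ 2)) -
      kt f a (bm a z))) = bm a z * deriv (kt f a) (bm a z) *
        ((w₀ - f a) / (deriv f a * (1 - (‖a‖ : ℂ) ^ 2)))) :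
    ε ≤ 144 * R * (1 + 4 * R) * Real.exp A.re * δ * min M (dd f a) := by
  obtain ⟨hg, hD, h3⟩ := hKT f hf.diff hf.inj a ha
  obtain ⟨hξ, h4, h5⟩ := h3 z hz
  have homit' := omit_kt hKT hf homit ha
  have hDc := norm_Dc (f := f) (a := a) (by simpa using ha)
  set Dc : ℂ := deriv f a * (1 - (‖a‖ : ℂ) ^ 2) with hDcdef
  set u : ℂ := (w₀ - f a) / Dc with hu
  set ξ : ℂ := bm a z with hξdef
  set g : ℂ → ℂ := kt f a with hgdef
  set D : ℝ := dd f a with hDdef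
  have hDc0 : Dc ≠ 0 := by rw [← norm_pos_iff, hDc]; exact hD
  have hu4 : 1 ≤ 4 * ‖u‖ := by
    have h := Pool.Agent.H713R5.QJ.kb_omit one_pos hg.diff hg.inj homit'
    rw [hg.one, hg.zero, zero_sub, norm_neg, norm_one, one_mul] at h
    exact h
  have hgD : ‖g ξ‖ * D = ‖f z - f a‖ := by
    rw [← hDc, ← norm_mul, h4]
  have hgR : ‖g ξ‖ ≤ R := by
    have : ‖g ξ‖ * D ≤ R * D := by rw [hgD]; exact hRf
    exact le_of_mul_le_mul_right this hD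
  have huD : ‖u - g ξ‖ * D = ‖w₀ - f z‖ := by
    rw [← hDc, ← norm_mul]
    congr 1
    rw [sub_mul, h4, hu, div_mul_cancel₀ _ hDc0]
    ring
  have hn : Real.exp A.re * (‖g ξ‖ * ‖u - g ξ‖) = ‖ξ‖ * ‖deriv g ξ‖ * ‖u‖ := by
    have := congrArg norm hA
    rwa [norm_mul, norm_mul, norm_mul, norm_mul, Complex.norm_exp] at this
  set E : ℝ := Real.exp A.re with hE
  have hEpos : 0 < E := Real.exp_pos _
  have hξ2 : 1 / 2 ≤ ‖ξ‖ := by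
    by_contra hlt
    rw [not_le] at hlt
    nlinarith [norm_nonneg ξ]
  have hM16 : 1 ≤ 16 * M := by
    have := norm_f_ge hTWO hf hz
    linarith
  have hMpos : 0 < M := by linarith
  have hg' : 0 ≤ ‖deriv g ξ‖ := norm_nonneg _
  have hupos : 0 < ‖u‖ := by linarith
  -- first bound
  have hb1 : ‖deriv g ξ‖ ≤ 2 * (E * R * (1 + 4 * R)) := by
    have h6 : ‖u - g ξ‖ ≤ (1 + 4 * R) * ‖u‖ := by
      have := norm_sub_le u (g ξ)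
      nlinarith
    have h7 : E * (‖g ξ‖ * ‖u - g ξ‖) ≤ E * (R * ((1 + 4 * R) * ‖u‖)) :=
      mul_le_mul_of_nonneg_left (mul_le_mul hgR h6 (norm_nonneg _) hR.le) hEpos.le
    rw [hn] at h7
    have h8 : (1 / 2) * ‖deriv g ξ‖ * ‖u‖ ≤ ‖ξ‖ * ‖deriv g ξ‖ * ‖u‖ := by
      refine mul_le_mul_of_nonneg_right ?_ hupos.le
      exact mul_le_mul_of_nonneg_right hξ2 hg'
    have h9 : ((1 / 2) * ‖deriv g ξ‖) * ‖u‖ ≤ (E * R * (1 + 4 * R)) * ‖u‖ := by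
      calc ((1 / 2) * ‖deriv g ξ‖) * ‖u‖ ≤ _ := h8
        _ ≤ _ := h7
        _ = _ := by ring
    have := le_of_mul_le_mul_right h9 hupos
    linarith
  have hb2 : ‖deriv g ξ‖ * D ≤ 144 * (E * R * M) := by
    have h6 : ‖u - g ξ‖ * D ≤ 18 * M := by
      rw [huD]
      have := norm_sub_le w₀ (f z)
      linarith
    have h7 : E * (‖g ξ‖ * (‖u - g ξ‖ * D)) ≤ E * (R * (18 * M)) :=
      mul_le_mul_of_nonneg_left (mul_le_mul hgR h6 (by positivity) hR.le) hEpos.le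
    have h8 : (‖ξ‖ * ‖deriv g ξ‖ * ‖u‖) * D ≤ 18 * (E * R * M) := by
      rw [← hn]
      calc _ = E * (‖g ξ‖ * (‖u - g ξ‖ * D)) := by ring
        _ ≤ _ := h7
        _ = _ := by ring
    have h9 : (1 / 2 * ‖deriv g ξ‖ * (1 / 4)) * D ≤ (‖ξ‖ * ‖deriv g ξ‖ * ‖u‖) * D := by
      refine mul_le_mul_of_nonneg_right ?_ hD.le
      refine mul_le_mul ?_ (by linarith) (by norm_num) (by positivity)
      exact mul_le_mul_of_nonneg_right hξ2 hg'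
    linarith
  have h10 : ε ≤ ‖deriv g ξ‖ * (1 - ‖ξ‖ ^ 2) * D := by rw [h5]; exact hε
  have h11 : ‖deriv g ξ‖ * (1 - ‖ξ‖ ^ 2) * D ≤ ‖deriv g ξ‖ * δ * D :=
    mul_le_mul_of_nonneg_right (mul_le_mul_of_nonneg_left hup hg') hD.le
  have h12 : ε ≤ 144 * R * (1 + 4 * R) * E * δ * D := by
    have h13 : ‖deriv g ξ‖ * (δ * D) ≤ 2 * (E * R * (1 + 4 * R)) * (δ * D) :=
      mul_le_mul_of_nonneg_right hb1 (by positivity)
    have h14 : 0 ≤ E * R * (1 + 4 * R) * (δ * D) := by positivity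
    calc ε ≤ ‖deriv g ξ‖ * (δ * D) := by linarith
      _ ≤ _ := h13
      _ ≤ 144 * (E * R * (1 + 4 * R)) * (δ * D) := by linarith
      _ = _ := by ring
  have h15 : ε ≤ 144 * R * (1 + 4 * R) * E * δ * M := by
    have h16 : (‖deriv g ξ‖ * D) * δ ≤ 144 * (E * R * M) * δ :=
      mul_le_mul_of_nonneg_right hb2 hδ0.le
    have h17 : 0 ≤ E * R * M * δ := by positivity
    have h18 : 0 ≤ (E * R * M * δ) * (4 * R) := by positivity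
    calc ε ≤ (‖deriv g ξ‖ * D) * δ := by linarith
      _ ≤ _ := h16
      _ ≤ 144 * ((E * R * M * δ) * (1 + 4 * R)) := by linarith
      _ = _ := by ring
  rcases le_total M D with h | h
  · rw [min_eq_left h]; exact h15
  · rw [min_eq_right h]; exact h12

theorem log_le {s : ℂ} {N : ℕ} (hlow : (1 / 2 : ℝ) ^ N / 100 ≤ 1 - ‖s ^ 2‖ ^ 2) :
    Real.log ((1 + ‖s‖ ^ 2) / (1 - ‖s‖ ^ 2)) ≤ N * Real.log 2 + Real.log 400 := by
  rw [norm_pow] at hlow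
  set x : ℝ := ‖s‖ ^ 2 with hx
  have hx0 : 0 ≤ x := by positivity
  have hN : (0:ℝ) < (1 / 2 : ℝ) ^ N := by positivity
  have hx1 : x < 1 := by nlinarith
  have h2N : (0:ℝ) < 2 ^ N := by positivity
  have h1 : (1 + x) / (1 - x) ≤ 2 ^ N * 400 := by
    rw [div_le_iff₀ (by linarith)]
    have h2 : (1:ℝ) ≤ 2 ^ N * 100 * (1 - x ^ 2) := by
      have h3 : (2:ℝ) ^ N * (1 / 2) ^ N = 1 := by rw [← mul_pow]; norm_num
      have h4 := mul_le_mul_of_nonneg_left hlow h2N.le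
      nlinarith
    have h5 : (1 - x ^ 2) ≤ 2 * (1 - x) := by nlinarith
    have h6 : (2:ℝ) ^ N * 100 * (1 - x ^ 2) ≤ 2 ^ N * 100 * (2 * (1 - x)) :=
      mul_le_mul_of_nonneg_left h5 (by positivity)
    nlinarith
  have h2 : 0 < (1 + x) / (1 - x) := div_pos (by linarith) (by linarith)
  calc Real.log ((1 + x) / (1 - x)) ≤ Real.log (2 ^ N * 400) := Real.log_le_log h2 h1
    _ = _ := by rw [Real.log_mul h2N.ne' (by norm_num), Real.log_pow]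

end V5helper96.SZ
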